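import Mathlib
import Pool.Agent.Y958.SP.Stm4

/-!
# Choice of the parameters, general sums (helper515)
-/

set_option autoImplicit false

namespace Pool.Agent.Y515.SP

theorem paru : Pool.Agent.Y958.SP.PARU := by
  intro κ B U hκ hB hU
  have hB0 : 0 < B := zero_lt_one.trans_le hB
  set A : ℝ := 1 + 4 / κ * (5 * B + 3) with hA
  have hA1 : 1 ≤ A := by
    have : 0 ≤ 4 / κ * (5 * B + 3) := by positivity
    linarith
  have hlA : 0 ≤ Real.log A := Real.log_nonneg hA1
  refine ⟨416 * B ^ 2 * U * (1 + Real.log A) / κ + 1, by positivity, ?_⟩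
  intro N J G μ hN hJ hG hμ hC
  have hG0 : 0 < G := zero_lt_one.trans_le hG
  have hlG : 0 ≤ Real.log G := Real.log_nonneg hG
  set L : ℝ := Real.log N with hL
  have hN3 : (3 : ℝ) ≤ N := by exact_mod_cast hN
  have hN0 : (0 : ℝ) < N := by linarith
  have hL1 : 1 ≤ L := by
    rw [hL, Real.le_log_iff_exp_le hN0]
    exact (Real.exp_one_lt_three.le).trans hN3
  have hLL : 0 ≤ Real.log L := Real.log_nonneg hL1
  set lam : ℝ := 1 + 4 / κ * (B * (5 * G) + 3) with hlam
  have hg0 : 0 ≤ B * (5 * G) + 3 := by positivity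
  have hlam1 : 1 ≤ lam := by
    have : 0 ≤ 4 / κ * (B * (5 * G) + 3) := by positivity
    linarith
  have hlam0 : 0 < lam := by linarith
  have hlog : 0 ≤ Real.log lam := Real.log_nonneg hlam1
  have he0 : 0 < Real.exp 1 * lam := by positivity
  refine ⟨lam, hlam1, ?_⟩
  rw [Real.rpow_def_of_pos he0, Real.rpow_def_of_pos hN0, ← Real.exp_add]
  apply Real.exp_le_exp.mpr
  rw [Real.log_mul (Real.exp_pos 1).ne' hlam0.ne', Real.log_exp, ← hL]
  -- the second factor
  have h2 : (J : ℝ) * (B * (5 * G) + 3) / lam ≤ κ * L / 2 := by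
    rw [div_le_iff₀ hlam0]
    have h5 : κ * lam = κ + 4 * (B * (5 * G) + 3) := by
      rw [hlam]
      field_simp
    have h6 : (J : ℝ) * (B * (5 * G) + 3) ≤ 2 * L * (B * (5 * G) + 3) :=
      mul_le_mul_of_nonneg_right hJ hg0
    have h7 : κ * L / 2 * lam = L / 2 * (κ + 4 * (B * (5 * G) + 3)) := by
      rw [← h5]
      ring
    rw [h7]
    have h8 : 0 ≤ L * κ := by positivity
    nlinarith
  -- the first factor
  have h3 : 1 + Real.log lam ≤ (1 + Real.log A) * (1 + Real.log G) := by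
    have h4 : lam ≤ A * G := by
      rw [hlam, hA]
      have h5 : 0 < 4 / κ := by positivity
      have h6 : B * (5 * G) + 3 ≤ (5 * B + 3) * G := by nlinarith
      have h7 : 4 / κ * (B * (5 * G) + 3) ≤ 4 / κ * ((5 * B + 3) * G) :=
        mul_le_mul_of_nonneg_left h6 h5.le
      linarith
    have h5 : Real.log lam ≤ Real.log A + Real.log G := by
      rw [← Real.log_mul (by linarith) hG0.ne']
      exact Real.log_le_log hlam0 h4
    nlinarith [mul_nonneg hlA hlG]
  have h4 : 16 * ((B * (5 * G)) ^ 2 + 1) ≤ 416 * B ^ 2 * G ^ 2 := by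
    have h5 : 1 ≤ (B * G) ^ 2 := by
      apply one_le_pow₀
      nlinarith
    nlinarith
  set X : ℝ := G ^ 2 * (1 + Real.log G) * Real.log L with hX
  have hX0 : 0 ≤ X := by positivity
  have hC' : (416 * B ^ 2 * U * (1 + Real.log A) / κ) * X ≤ μ * L := by
    have h5 : (416 * B ^ 2 * U * (1 + Real.log A) / κ + 1) * G ^ 2 * (1 + Real.log G) *
        Real.log L = (416 * B ^ 2 * U * (1 + Real.log A) / κ) * X + X := by
      rw [hX]
      ring
    rw [h5] at hC
    linarith
  have h5 : (1 + Real.log lam) * (16 * ((B * (5 * G)) ^ 2 + 1) *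
      (U * Real.log L / (2 * μ))) ≤ κ * L / 2 := by
    have h6 : 0 ≤ U * Real.log L / (2 * μ) := by positivity
    calc (1 + Real.log lam) * (16 * ((B * (5 * G)) ^ 2 + 1) * (U * Real.log L / (2 * μ)))
        ≤ ((1 + Real.log A) * (1 + Real.log G)) * ((416 * B ^ 2 * G ^ 2) *
          (U * Real.log L / (2 * μ))) := by
          gcongr
      _ = (416 * B ^ 2 * U * (1 + Real.log A) / κ) * X * (κ / (2 * μ)) := by
          rw [hX]
          field_simp
      _ ≤ μ * L * (κ / (2 * μ)) := by gcongr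
      _ = κ * L / 2 := by field_simp
  calc _ ≤ κ * L / 2 + κ * L / 2 := add_le_add h5 h2
    _ = L * κ := by ring

end Pool.Agent.Y515.SP
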